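import Pool.Agent.W734.TWB.Stms

/-!
# TWB-CORE: lower bound for the weighted energy
-/

set_option autoImplicit false

noncomputable section

namespace Pool.Agent.W496.TWB

open MeasureTheory Set Filter Metric
open Pool.Agent.W734.TWB

lemma b1_nonneg {W : E3 → ℝ} (hW : AdmW W) : 0 ≤ b1 W := by
  apply Real.sInf_nonneg
  rintro B ⟨φ, -, -, rfl⟩
  apply integral_nonneg
  intro y
  have h1 : 0 ≤ g3 φ y := Finset.sum_nonneg fun k _ => by positivity
  have h2 := hW.nonneg y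
  simp only [Pi.zero_apply]
  positivity

lemma b2_nonneg {V : E3 × E3 → ℝ} (hV : AdmV V) : 0 ≤ b2 V := by
  apply Real.sInf_nonneg
  rintro B ⟨φ, -, -, rfl⟩
  apply integral_nonneg
  intro y
  have h1 : 0 ≤ g6 φ y := Finset.sum_nonneg fun k _ => by positivity
  have h2 := hV.nonneg y
  simp only [Pi.zero_apply]
  positivity

lemma potOK {W : E3 → ℝ} {V : E3 × E3 → ℝ} (hW : AdmW W) (hV : AdmV V) (N : ℕ) :
    PotOK (Wn N W) (Vn N V) := by
  refine ⟨?_, ?_, ?_, ?_, ?_, ?_⟩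
  · unfold Wn
    exact (hW.meas.comp (measurable_const_smul (N : ℝ))).const_mul _
  · unfold Vn
    exact (hV.meas.comp (measurable_const_smul (Real.sqrt N))).const_mul _
  · intro x
    have := hW.nonneg ((N : ℝ) • x)
    unfold Wn
    positivity
  · intro p
    have := hV.nonneg (Real.sqrt N • p)
    unfold Vn
    positivity
  · obtain ⟨M, hM⟩ := hW.bdd
    refine ⟨(N : ℝ) ^ 2 * M, fun x => ?_⟩
    exact mul_le_mul_of_nonneg_left (hM _) (by positivity)
  · obtain ⟨M, hM⟩ := hV.bdd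
    refine ⟨(N : ℝ) * M, fun x => ?_⟩
    exact mul_le_mul_of_nonneg_left (hM _) (by positivity)

lemma cont_wt {N : ℕ} {φ : E3 → ℝ} (hφ : Continuous φ) : Continuous (fun x : Cfg N => wt φ x) := by
  unfold wt
  exact continuous_finset_prod _ fun i _ => (hφ.comp (continuous_apply i)).pow 2

lemma wt_nonneg {N : ℕ} (φ : E3 → ℝ) (x : Cfg N) : 0 ≤ wt φ x :=
  Finset.prod_nonneg fun i _ => sq_nonneg _

lemma int_wF {N : ℕ} {φ : E3 → ℝ} (hφ : Continuous φ) {F : Cfg N → ℂ} (hF : Continuous F)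
    (hs : HasCompactSupport F) {c : Cfg N → ℝ} (hc : Continuous c) :
    Integrable (fun x => c x * (wt φ x * ‖F x‖ ^ 2)) := by
  apply Continuous.integrable_of_hasCompactSupport
  · exact hc.mul ((cont_wt hφ).mul (hF.norm.pow 2))
  · refine HasCompactSupport.intro hs (fun x hx => ?_)
    have : F x = 0 := image_eq_zero_of_notMem_tsupport hx
    simp [this]

lemma int_kin {N : ℕ} {φ : E3 → ℝ} (hφ : Continuous φ) {F : Cfg N → ℂ} (hF : ContDiff ℝ 1 F)
    (hs : HasCompactSupport F) :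
    Integrable (fun x => wt φ x * kin F x) := by
  apply Continuous.integrable_of_hasCompactSupport
  · refine (cont_wt hφ).mul ?_
    unfold kin gsq
    refine continuous_finset_sum _ fun i _ => continuous_finset_sum _ fun k _ => ?_
    exact (((hF.continuous_fderiv one_ne_zero).clm_apply continuous_const).norm).pow 2
  · refine HasCompactSupport.intro hs (fun x hx => ?_)
    have : fderiv ℝ F x = 0 := by
      by_contra h
      exact hx (support_fderiv_subset ℝ (f := F) h)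
    simp [kin, gsq, this]

lemma int_pair {N : ℕ} {φ : E3 → ℝ} (hφ : Continuous φ) {F : Cfg N → ℂ} (hF : Continuous F)
    (hs : HasCompactSupport F) {w : E3 → ℝ} {v : E3 × E3 → ℝ} (hwv : PotOK w v) :
    Integrable (fun x => pairS w x * (wt φ x * ‖F x‖ ^ 2)) := by
  have hI : Integrable (fun x : Cfg N => wt φ x * ‖F x‖ ^ 2) := by
    simpa using int_wF hφ hF hs (c := fun _ => 1) continuous_const
  obtain ⟨M, hM⟩ := hwv.bw
  unfold pairS
  simp_rw [Finset.sum_mul]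
  refine integrable_finset_sum _ fun i _ => integrable_finset_sum _ fun j _ => ?_
  refine Integrable.bdd_mul (c := M) hI ?_ ?_
  · refine (hwv.mw.comp ?_).aestronglyMeasurable
    exact (measurable_pi_apply i).sub (measurable_pi_apply j)
  · refine Eventually.of_forall fun x => ?_
    rw [Real.norm_eq_abs, abs_of_nonneg (hwv.nw _)]
    exact hM _

lemma int_trip {N : ℕ} {φ : E3 → ℝ} (hφ : Continuous φ) {F : Cfg N → ℂ} (hF : Continuous F)
    (hs : HasCompactSupport F) {w : E3 → ℝ} {v : E3 × E3 → ℝ} (hwv : PotOK w v) :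
    Integrable (fun x => tripS v x * (wt φ x * ‖F x‖ ^ 2)) := by
  have hI : Integrable (fun x : Cfg N => wt φ x * ‖F x‖ ^ 2) := by
    simpa using int_wF hφ hF hs (c := fun _ => 1) continuous_const
  obtain ⟨M, hM⟩ := hwv.bv
  unfold tripS
  simp_rw [Finset.sum_mul]
  refine integrable_finset_sum _ fun i _ => integrable_finset_sum _ fun j _ =>
    integrable_finset_sum _ fun k _ => ?_
  refine Integrable.bdd_mul (c := M) hI ?_ ?_
  · refine (hwv.mv.comp ?_).aestronglyMeasurable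
    exact ((measurable_pi_apply i).sub (measurable_pi_apply j)).prodMk
      ((measurable_pi_apply i).sub (measurable_pi_apply k))
  · refine Eventually.of_forall fun x => ?_
    rw [Real.norm_eq_abs, abs_of_nonneg (hwv.nv _)]
    exact hM _

lemma int_en {N : ℕ} {φ : E3 → ℝ} (hφ : Continuous φ) {F : Cfg N → ℂ} (hF : ContDiff ℝ 1 F)
    (hs : HasCompactSupport F) {w : E3 → ℝ} {v : E3 × E3 → ℝ} (hwv : PotOK w v) :
    Integrable (fun x => wt φ x * (kin F x + (pairS w x + tripS v x) * ‖F x‖ ^ 2)) := by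
  have h := ((int_kin hφ hF hs).add (int_pair hφ hF.continuous hs hwv)).add
    (int_trip hφ hF.continuous hs hwv)
  refine h.congr (Eventually.of_forall fun x => ?_)
  simp only [Pi.add_apply]
  ring

lemma meas_reg {N : ℕ} (l : ℝ) (k : Fin N → (Fin 3 → ℤ)) : MeasurableSet (reg l k) := by
  unfold reg
  simp only [setOf_forall]
  refine MeasurableSet.iInter fun i => MeasurableSet.iInter fun a => ?_
  have : Measurable (fun x : Cfg N => x i a) := by fun_prop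
  exact this measurableSet_Ico

lemma ell_pow {n0 : ℝ} (hn : 0 < n0) {N : ℕ} (hN : 1 ≤ N) :
    0 < ell n0 N ∧ (N : ℝ) * ell n0 N ^ 3 = n0 := by
  have hN' : (0 : ℝ) < N := by exact_mod_cast hN
  have h0 : 0 < n0 / N := by positivity
  refine ⟨Real.rpow_pos_of_pos h0 _, ?_⟩
  have : ell n0 N ^ 3 = n0 / N := by
    unfold ell
    rw [← Real.rpow_natCast, ← Real.rpow_mul h0.le]
    norm_num
  rw [this]
  field_simp

lemma ell_tendsto (n0 : ℝ) : Tendsto (fun N : ℕ => ell n0 N) atTop (nhds 0) := by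
  have h1 : Tendsto (fun N : ℕ => n0 / (N : ℝ)) atTop (nhds 0) :=
    tendsto_const_div_atTop_nhds_zero_nat n0
  have h2 := h1.rpow_const (p := 1 / 3) (Or.inr (by norm_num))
  rw [Real.zero_rpow (by norm_num)] at h2
  exact h2

lemma UU_mono {β γ : ℝ} (hβ : 0 ≤ β) (hγ : 0 ≤ γ) {s t : ℝ} (hs : 0 ≤ s) (hst : s ≤ t) :
    UU β γ s ≤ UU β γ t := by
  unfold UU
  have h1 := mul_le_mul_of_nonneg_left hst hβ
  have h2 : s ^ 2 ≤ t ^ 2 := pow_le_pow_left₀ hs hst 2
  have h3 := mul_le_mul_of_nonneg_left h2 (by positivity : 0 ≤ γ / 2)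
  linarith

/-- the numerical inequality in one region -/
lemma key {β γ : ℝ} (hβ : 0 ≤ β) (hγ : 0 ≤ γ) {N : ℕ} {l n0 M ε I : ℝ} (hM : 0 ≤ M)
    (hε : 0 < ε) (hl : (N : ℝ) * l ^ 3 = n0) (𝒜 : Finset (Fin 3 → ℤ))
    (ρh : (Fin 3 → ℤ) → ℝ) (h𝒜 : ∀ α, α ∉ 𝒜 → ρh α = 0)
    (hsum : (∑ α ∈ 𝒜, l ^ 3 * dd β γ (ρh α)) ≤ I + ε / 2)
    (hcard : (𝒜.card : ℝ) * l ^ 3 ≤ M) (H : ℕ → ℝ)
    (hH : ∀ α, ∀ n : ℕ, (n : ℝ) * UU β γ (ρh α) - n0 * dd β γ (ρh α) - ε / (2 * (M + 1)) * n0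
      ≤ H n)
    (k : Fin N → (Fin 3 → ℤ)) (r : Fin N → ℝ) (hr0 : ∀ i, 0 ≤ r i) (hr : ∀ i, r i ≤ ρh (k i)) :
    (∑ i, UU β γ (r i)) - (N : ℝ) * (I + ε) ≤
      ∑ α ∈ 𝒜, H (Finset.univ.filter (fun i => k i = α)).card := by
  classical
  have h1 : (∑ i, UU β γ (r i)) ≤ ∑ i, UU β γ (ρh (k i)) :=
    Finset.sum_le_sum fun i _ => UU_mono hβ hγ (hr0 i) (hr i)
  have h2 : ∀ i, UU β γ (ρh (k i)) = ∑ α ∈ 𝒜, if k i = α then UU β γ (ρh α) else 0 := by
    intro i
    rw [Finset.sum_ite_eq]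
    split_ifs with h
    · rfl
    · rw [h𝒜 _ h]; simp [UU]
  have h3 : (∑ i, UU β γ (ρh (k i))) =
      ∑ α ∈ 𝒜, ((Finset.univ.filter (fun i => k i = α)).card : ℝ) * UU β γ (ρh α) := by
    rw [Finset.sum_congr rfl (fun i _ => h2 i), Finset.sum_comm]
    refine Finset.sum_congr rfl fun α _ => ?_
    rw [← Finset.sum_filter, Finset.sum_const, nsmul_eq_mul]
  have h4 : (∑ α ∈ 𝒜, ((Finset.univ.filter (fun i => k i = α)).card : ℝ) * UU β γ (ρh α)) ≤
      ∑ α ∈ 𝒜, (H (Finset.univ.filter (fun i => k i = α)).card + n0 * dd β γ (ρh α)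
        + ε / (2 * (M + 1)) * n0) :=
    Finset.sum_le_sum fun α _ => by linarith [hH α (Finset.univ.filter (fun i => k i = α)).card]
  rw [Finset.sum_add_distrib, Finset.sum_add_distrib, Finset.sum_const, nsmul_eq_mul] at h4
  have hN0 : (0 : ℝ) ≤ N := Nat.cast_nonneg N
  have h5 : (∑ α ∈ 𝒜, n0 * dd β γ (ρh α)) ≤ (N : ℝ) * (I + ε / 2) := by
    have : (∑ α ∈ 𝒜, n0 * dd β γ (ρh α)) = (N : ℝ) * ∑ α ∈ 𝒜, l ^ 3 * dd β γ (ρh α) := by
      rw [Finset.mul_sum]
      refine Finset.sum_congr rfl fun α _ => ?_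
      rw [← hl]; ring
    rw [this]
    exact mul_le_mul_of_nonneg_left hsum hN0
  have h6 : (𝒜.card : ℝ) * (ε / (2 * (M + 1)) * n0) ≤ (N : ℝ) * (ε / 2) := by
    have e1 : (𝒜.card : ℝ) * (ε / (2 * (M + 1)) * n0)
        = (N : ℝ) * (ε / (2 * (M + 1)) * ((𝒜.card : ℝ) * l ^ 3)) := by
      rw [← hl]; ring
    rw [e1]
    refine mul_le_mul_of_nonneg_left ?_ hN0
    have e2 : ε / (2 * (M + 1)) * ((𝒜.card : ℝ) * l ^ 3) ≤ ε / (2 * (M + 1)) * M :=
      mul_le_mul_of_nonneg_left hcard (by positivity)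
    have e3 : ε / (2 * (M + 1)) * M ≤ ε / 2 := by
      rw [div_mul_eq_mul_div, div_le_div_iff₀ (by positivity) (by norm_num)]
      nlinarith
    linarith
  have h7 : (N : ℝ) * (I + ε) = (N : ℝ) * (I + ε / 2) + (N : ℝ) * (ε / 2) := by ring
  linarith

theorem core : S_BLOCK → S_SUMK → S_PART → S_NUM1 → S_RIEM → S_CORE := by
  intro hB hS hP hNum hR W V hW hV φ hφ hφ0 ρ hρ hρs hρ0 ε hε
  have hβ := b1_nonneg hW
  have hγ := b2_nonneg hV
  obtain ⟨M, ρm, hM, hρm, hR⟩ := hR (b1 W) (b2 V) hβ hγ ρ hρ hρs hρ0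
  obtain ⟨n0, p, η, hn0, hp, hη, hη1, hNum⟩ :=
    hNum (b1 W) (b2 V) ρm (ε / (2 * (M + 1))) hβ hγ hρm (by positivity)
  obtain ⟨l0, hl0, hR⟩ := hR (ε / 2) (by positivity)
  have hlim : ∀ᶠ N : ℕ in atTop, ell n0 N < l0 := (ell_tendsto n0).eventually_lt_const hl0
  filter_upwards [hB W V hW hV φ hφ hφ0 M p n0 η hn0 hη, hlim, eventually_ge_atTop 1]
    with N hbox hlt hN1 F hF hFs
  obtain ⟨hlpos, hl3⟩ := ell_pow hn0 hN1
  obtain ⟨𝒜, ρh, hρh0, hρhm, hρhA, hcor, hρle, hsum, hcard⟩ := hR (ell n0 N) hlpos hlt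
  have hpot := potOK hW hV N
  set l := ell n0 N with hldef
  set A : ℕ → ℝ := fun m => (1 - η) * hh (b1 W) (b2 V) n0 m with hA
  have hA0 : ∀ m ≤ p, 0 ≤ A m := by
    intro m _
    have : 0 ≤ 1 - η := by linarith
    simp only [hA, hh]
    positivity
  have hIF : ∀ c : Cfg N → ℝ, Continuous c → Integrable (fun x => c x * (wt φ x * ‖F x‖ ^ 2)) :=
    fun c hc => int_wF hφ hF.continuous hFs hc
  have hcU : Continuous (fun x : Cfg N => ∑ i, UU (b1 W) (b2 V) (ρ (x i))) := by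
    unfold UU
    refine continuous_finset_sum _ fun i _ => ?_
    have : Continuous (fun x : Cfg N => ρ (x i)) := hρ.comp (continuous_apply i)
    fun_prop
  have hi1 := hIF _ hcU
  have hi2 := hIF (fun _ => (N : ℝ) * ((∫ x, dd (b1 W) (b2 V) (ρ x)) + ε)) continuous_const
  have hg := int_en hφ hF hFs hpot
  have hi3 : Integrable (fun x : Cfg N => ((∑ i, UU (b1 W) (b2 V) (ρ (x i)))
      - (N : ℝ) * ((∫ x, dd (b1 W) (b2 V) (ρ x)) + ε)) * (wt φ x * ‖F x‖ ^ 2)) := by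
    refine (hi1.sub hi2).congr (Eventually.of_forall fun x => ?_)
    simp only [Pi.sub_apply]
    ring
  have hmain := hP l hlpos N
    (fun x => ((∑ i, UU (b1 W) (b2 V) (ρ (x i)))
      - (N : ℝ) * ((∫ x, dd (b1 W) (b2 V) (ρ x)) + ε)) * (wt φ x * ‖F x‖ ^ 2))
    (fun x => wt φ x * (kin F x + (pairS (Wn N W) x + tripS (Vn N V) x) * ‖F x‖ ^ 2))
    hi3 hg ?_
  · have hsub : (∫ x : Cfg N, ((∑ i, UU (b1 W) (b2 V) (ρ (x i)))
        - (N : ℝ) * ((∫ x, dd (b1 W) (b2 V) (ρ x)) + ε)) * (wt φ x * ‖F x‖ ^ 2)) =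
        (∫ x : Cfg N, (∑ i, UU (b1 W) (b2 V) (ρ (x i))) * (wt φ x * ‖F x‖ ^ 2))
        - (N : ℝ) * ((∫ x, dd (b1 W) (b2 V) (ρ x)) + ε) * (∫ x, wt φ x * ‖F x‖ ^ 2) := by
      simp only [sub_mul]
      rw [integral_sub hi1 hi2, integral_const_mul]
    rw [hsub] at hmain
    exact hmain
  · intro k
    have h1 := hS φ hφ hφ0 (Wn N W) (Vn N V) hpot l hlpos p hp A 𝒜 hA0
      (fun α hα m hm => hbox (corner l α) (hcor α hα) m hm) N k F hF
    refine le_trans ?_ h1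
    rw [← integral_const_mul]
    refine setIntegral_mono_on ?_ ?_ (meas_reg l k) ?_
    · exact hi3.integrableOn
    · exact (hIF (fun _ => _) continuous_const).integrableOn
    · intro x hx
      refine mul_le_mul_of_nonneg_right ?_ (mul_nonneg (wt_nonneg φ x) (sq_nonneg _))
      exact key hβ hγ hM hε hl3 𝒜 ρh hρhA hsum hcard (HH A p)
        (fun α n => hNum (ρh α) (hρh0 α) (hρhm α) n) k (fun i => ρ (x i)) (fun i => hρ0 _)
        (fun i => hρle (k i) (x i) (fun a => hx i a))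

end Pool.Agent.W496.TWB
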